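import Pool.Agent.TH724.BD.Free

/-!
# Non-meagre sets with relatively meagre traces on all translates of a Cantor set

For a Cantor set `K` of reals, `SmallTraces K` says that there is a non-meagre set `X` of reals such
that `K ∩ (X + t)` is meagre in `K` for all reals `t`. It is proved here (in ZFC) for each Cantor
set `K` such that each nonempty portion of `K` contains nonempty portions `K ∩ O' 0, …,
K ∩ O' (n - 1)` of `K` with the following property: the set of all tuples `z` of `n` reals such that
one translation takes each `z j` into `K ∩ O' j` is meagre in `ℝ ^ n`. This holds if each nonempty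
portion of `K` contains a nonempty portion of lower box dimension less than `1`, in particular for
the middle-thirds set.

The first part uses nowhere meagre free sets of countably many meagre relations of finite arity.
For the second part the set `X` is constructed by recursion of length `𝔠` together with covers of
the sets of common translations of the finite subsets of `X`.
-/

set_option autoImplicit false

namespace Pool.Agent.Results.MP_72b52d_lc.FewCommonTranslates

open Pool.Agent.H458R5 Pool.Agent.TH724.BD

/-- The negated form of the question for the Cantor sets whose translates do not catch typical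
tuples of reals. -/
theorem result :
    (∀ K : Set ℝ, IsCantorSet K →
      (∀ O : Set ℝ, IsOpen O → (K ∩ O).Nonempty →
        ∃ (n : ℕ) (O' : Fin n → Set ℝ),
          (∀ j, O' j ⊆ O ∧ IsOpen (O' j) ∧ (K ∩ O' j).Nonempty) ∧
          IsMeagre {z : Fin n → ℝ | ∃ t : ℝ, ∀ j, z j - t ∈ K ∩ O' j}) →
      SmallTraces K) ∧
    (∀ K : Set ℝ, IsCantorSet K →
      (∀ O : Set ℝ, IsOpen O → (K ∩ O).Nonempty →
        ∃ O' ⊆ O, IsOpen O' ∧ (K ∩ O').Nonempty ∧ LowerBoxDimLtOne (K ∩ O')) →
      SmallTraces K) ∧
    SmallTraces cantorSet :=
  ⟨fun _ hK h => smallTraces_of_caught hK h, fun _ hK h => smallTraces_of_locallyBox hK h,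
    smallTraces_cantorSet⟩

end Pool.Agent.Results.MP_72b52d_lc.FewCommonTranslates
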